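import Pool.Agent.H37.CTT.Stmts

/-!
# Board `ctt`: row SC8
-/

set_option autoImplicit false

namespace Pool.CND

open Finset Polynomial

namespace SC8a

/-- the solutions of `u ^ q = u` are constants -/
theorem const_of_pow {k F L : Type} [Field k] [Field F] [Algebra F k] [Field L] [Algebra k L]
    {q : ℕ} (hq : 1 < q) (hF : Nat.card F = q) (u : L) (hu : u ^ q = u) :
    ∃ c : F, cst k F L c = u := by
  classical
  have hfin : Finite F := by
    apply Nat.finite_of_card_ne_zero
    rw [hF]
    omega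
  have := Fintype.ofFinite F
  by_contra hno
  push Not at hno
  have hinj : Function.Injective (cst k F L : F → L) := by
    intro a b hab
    unfold cst at hab
    exact (algebraMap F k).injective ((algebraMap k L).injective hab)
  have hcard : Fintype.card F = q := by rw [← Nat.card_eq_fintype_card, hF]
  set S : Finset L := insert u (Finset.univ.image (cst k F L : F → L)) with hS
  have hSc : S.card = q + 1 := by
    rw [hS, Finset.card_insert_of_notMem, Finset.card_image_of_injective _ hinj,
      Finset.card_univ, hcard]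
    intro hmem
    rw [Finset.mem_image] at hmem
    obtain ⟨c, -, hc⟩ := hmem
    exact hno c hc
  have hne : (Polynomial.X ^ q - Polynomial.X : Polynomial L) ≠ 0 :=
    FiniteField.X_pow_card_sub_X_ne_zero L hq
  have hdeg : (Polynomial.X ^ q - Polynomial.X : Polynomial L).natDegree = q :=
    FiniteField.X_pow_card_sub_X_natDegree_eq L hq
  have hroot : ∀ x ∈ S, (Polynomial.X ^ q - Polynomial.X : Polynomial L).eval x = 0 := by
    intro x hx
    rw [hS, Finset.mem_insert, Finset.mem_image] at hx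
    rcases hx with rfl | ⟨c, -, rfl⟩
    · simp [hu]
    · have h1 : cst k F L c ^ q = cst k F L c := by
        unfold cst
        rw [← map_pow, ← map_pow, ← hcard, FiniteField.pow_card]
      simp [h1]
  have h2 := Polynomial.card_le_degree_of_subset_roots (Z := S)
    (p := (Polynomial.X ^ q - Polynomial.X : Polynomial L)) (by
      intro x hx
      rw [Polynomial.mem_roots hne]
      exact hroot x hx)
  omega

end SC8a

theorem sc8_thm : S_SC8 := by
  intro p k F L _ _ _ _ _ _ f q t a b D X Z hp hch hf hq hF hX hZ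
  have hfp : Fact p.Prime := ⟨hp⟩
  have hcL : CharP L p := charP_of_injective_algebraMap (algebraMap k L).injective p
  have hq1 : 1 < q := by
    rw [hq]
    exact Nat.one_lt_pow (by omega) hp.one_lt
  have hq0 : q ≠ 0 := by omega
  have hsub : ∀ u v : L, (u - v) ^ q = u ^ q - v ^ q := by
    intro u v
    rw [hq]
    exact sub_pow_char_pow u v f
  have hneg : ∀ u : L, (-u) ^ q = -u ^ q := by
    intro u
    have h := hsub 0 u
    rw [zero_pow hq0, zero_sub, zero_sub] at h
    exact h
  have h2 : ∀ u : L, u ^ q ^ 2 = (u ^ q) ^ q := by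
    intro u
    rw [pow_two, pow_mul]
  have hX0 : X 0 ≠ 0 := by
    intro h0
    have h := hX.ind (Pi.single 0 1) (by
      rw [Fin.sum_univ_four]
      simp [h0, cst])
    have h' := congrFun h 0
    simp at h'
  have hX1 : X 1 ≠ 0 := by
    intro h0
    have h := hX.ind (Pi.single 1 1) (by
      rw [Fin.sum_univ_four]
      simp [h0, cst])
    have h' := congrFun h 1
    simp at h'
  have hD : D ≠ 0 := by
    intro h0
    have hd := hZ.d
    rw [h0] at hd
    have hu : (X 1 / X 0) ^ q = X 1 / X 0 := by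
      rw [div_pow, div_eq_div_iff (pow_ne_zero _ hX0) hX0]
      linear_combination -hd
    obtain ⟨c, hc⟩ := SC8a.const_of_pow (k := k) (F := F) hq1 hF (X 1 / X 0) hu
    have hc' : cst k F L c * X 0 = X 1 := by
      rw [hc, div_mul_cancel₀ _ hX0]
    have h := hX.ind ![c, -1, 0, 0] (by
      rw [Fin.sum_univ_four]
      simp only [Matrix.cons_val_zero, Matrix.cons_val_one, Matrix.cons_val]
      have e1 : cst k F L (-1) = -1 := by
        unfold cst
        simp
      have e2 : cst k F L (0 : F) = 0 := by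
        unfold cst
        simp
      rw [e1, e2, hc']
      ring)
    have h' := congrFun h 1
    simp at h'
  have hDq : D ^ q = X 0 ^ q * (X 1 ^ q) ^ q - (X 0 ^ q) ^ q * X 1 ^ q := by
    rw [hZ.d, hsub, mul_pow, mul_pow]
  have hDq0 : D ^ q ≠ 0 := pow_ne_zero _ hD
  have c0 : cst k F L (0 : F) = 0 := by
    unfold cst
    simp
  have c1 : cst k F L (1 : F) = 1 := by
    unfold cst
    simp
  have gr : ∀ i j : Fin 4, ((X i ^ q) ^ q * X j - X i * (X j ^ q) ^ q) +
      (((X i ^ q) ^ q) ^ q * X j ^ q - X i ^ q * ((X j ^ q) ^ q) ^ q) -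
      a * ((X i ^ q) ^ q * X j ^ q - X i ^ q * (X j ^ q) ^ q) = cst k F L (J4s F i j) := by
    intro i j
    rw [← hX.gram i j]
    unfold sB
    rw [hsub, mul_pow, mul_pow, h2, h2]
  have g01 := gr 0 1
  have g02 := gr 0 2
  have g03 := gr 0 3
  have g12 := gr 1 2
  have g13 := gr 1 3
  have j01 : J4s F 0 1 = 0 := by simp [J4s]
  have j02 : J4s F 0 2 = 0 := by simp [J4s]
  have j03 : J4s F 0 3 = 1 := by simp [J4s]
  have j12 : J4s F 1 2 = 1 := by simp [J4s]
  have j13 : J4s F 1 3 = 0 := by simp [J4s]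
  rw [j01, c0] at g01
  rw [j02, c0] at g02
  rw [j03, c1] at g03
  rw [j12, c1] at g12
  rw [j13, c0] at g13
  have hd := hZ.d
  have e2q : X 1 ^ (2 * q) = X 1 ^ q * X 1 ^ q := by
    rw [two_mul, pow_add]
  have e2q' : X 0 ^ (2 * q) = X 0 ^ q * X 0 ^ q := by
    rw [two_mul, pow_add]
  have eD : D ^ (q + 1) = D ^ q * D := pow_succ D q
  refine ⟨hD, hX0, hX1, ?_, ?_, ?_⟩
  · rw [hZ.z0, div_pow, hsub, mul_pow, mul_pow, eD, e2q, div_sub_div _ _ hDq0 hD]
    congr 1
    rw [hDq, hd]
    linear_combination (X 1 ^ q) * (X 1 ^ q * g03 - X 0 ^ q * g13 - X 3 ^ q * g01)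
  · rw [hZ.z1, div_pow, hsub, mul_pow, mul_pow, eD, div_sub_div _ _ hDq0 hD]
    congr 1
    rw [hDq, hd]
    linear_combination -(X 0 ^ q) * (X 1 ^ q * g03 - X 0 ^ q * g13 - X 3 ^ q * g01)
  · rw [hZ.z2, div_pow, hsub, mul_pow, mul_pow, eD, e2q', div_sub_div _ _ hDq0 hD]
    congr 1
    rw [hDq, hd]
    linear_combination -(X 0 ^ q) * (X 1 ^ q * g02 - X 0 ^ q * g12 - X 2 ^ q * g01)

end Pool.CND
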